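import Pool.Agent.H33.HH.TC

/-!
# MP_347b49_nt: module GLH (the harmonic sum)
-/

set_option autoImplicit false

open NumberField Complex Filter Topology MeasureTheory
open scoped ContDiff nonZeroDivisors

namespace Pool.Agent.H11.HH

open Pool.Agent.H33.HH Pool.Agent.H28.RC Pool.Agent.H37.CV

theorem fin_le (K : Type) [Field K] [NumberField K] (P x : ℝ) :
    {I : Ideal (𝓞 K) | I ≠ ⊥ ∧ Cp P I ∧ nm I ≤ x}.Finite := by
  refine (Ideal.finite_setOfPred_absNorm_le (S := 𝓞 K) ⌊x⌋₊).subset ?_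
  rintro I ⟨_, _, h⟩
  exact Nat.le_floor h

theorem cn_mono (K : Type) [Field K] [NumberField K] (P : ℝ) : Monotone (cn K P) := by
  intro x y hxy
  unfold cn
  have : {I : Ideal (𝓞 K) | I ≠ ⊥ ∧ Cp P I ∧ nm I ≤ x} ⊆
      {I : Ideal (𝓞 K) | I ≠ ⊥ ∧ Cp P I ∧ nm I ≤ y} := fun I h => ⟨h.1, h.2.1, h.2.2.trans hxy⟩
  exact_mod_cast Set.ncard_le_ncard this (fin_le K P y)

theorem pf_GLH (h1 : T_CNT) (h2 : T_NS1) : T_GLH := by
  intro K _ _ _ P
  obtain ⟨C, hC, hcn⟩ := h1 K P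
  refine ⟨|rk K P| + C + 4 * C, by positivity, fun x hx => ?_⟩
  have hx0 : 0 < x := by linarith
  have hE : ∀ t : ℝ, 1 ≤ t → |cn K P t - rk K P * t| ≤ C * t ^ (3 / 4 : ℝ) := hcn
  have hs1 := h2 K P (fun t => t⁻¹) (fun t => -(t ^ 2)⁻¹)
    (fun t ht => hasDerivAt_inv ht.ne')
    (by
      apply ContinuousOn.neg
      apply ContinuousOn.inv₀
      · fun_prop
      · intro t ht
        exact pow_ne_zero 2 (ne_of_gt ht)) x hx
  have hs2 : hs K P x = x⁻¹ * cn K P x + ∫ t in Set.Ioc 1 x, (t ^ 2)⁻¹ * cn K P t := by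
    show ∑ᶠ I ∈ {I : Ideal (𝓞 K) | I ≠ ⊥ ∧ Cp P I ∧ nm I ≤ x}, (nm I)⁻¹ = _
    rw [hs1]
    have : ∫ t in Set.Ioc 1 x, -(t ^ 2)⁻¹ * cn K P t =
        -∫ t in Set.Ioc 1 x, (t ^ 2)⁻¹ * cn K P t := by
      rw [← integral_neg]
      congr 1
      ext t
      ring
    rw [this]
    ring
  -- the main term
  have hint1 : IntegrableOn (fun t : ℝ => rk K P * t⁻¹) (Set.Ioc 1 x) := by
    apply IntegrableOn.mono_set (t := Set.Icc 1 x) _ Set.Ioc_subset_Icc_self
    apply ContinuousOn.integrableOn_Icc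
    apply ContinuousOn.mul continuousOn_const
    apply ContinuousOn.inv₀ continuousOn_id
    intro t ht
    have := ht.1
    simp only [id]
    linarith
  have hint2 : IntegrableOn (fun t : ℝ => C * t ^ (-(5 / 4) : ℝ)) (Set.Ioi 1) :=
    (integrableOn_Ioi_rpow_of_lt (by norm_num) one_pos).const_mul C
  have hbd : ∀ t ∈ Set.Ioc 1 x, ‖(t ^ 2)⁻¹ * cn K P t - rk K P * t⁻¹‖ ≤
      C * t ^ (-(5 / 4) : ℝ) := by
    intro t ht
    have ht0 : 0 < t := by linarith [ht.1]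
    have e1 : (t ^ 2)⁻¹ * cn K P t - rk K P * t⁻¹ = (t ^ 2)⁻¹ * (cn K P t - rk K P * t) := by
      field_simp
    have e2 : C * t ^ (-(5 / 4) : ℝ) = (t ^ 2)⁻¹ * (C * t ^ (3 / 4 : ℝ)) := by
      have : t ^ (-(5 / 4) : ℝ) = t ^ (-2 : ℝ) * t ^ (3 / 4 : ℝ) := by
        rw [← Real.rpow_add ht0]
        norm_num
      rw [this, Real.rpow_neg ht0.le]
      norm_num
      ring
    rw [e1, e2, norm_mul, Real.norm_eq_abs, Real.norm_eq_abs, abs_of_pos (by positivity)]
    exact mul_le_mul_of_nonneg_left (hE t ht.1.le) (by positivity)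
  have hmeas : AEStronglyMeasurable (fun t : ℝ => (t ^ 2)⁻¹ * cn K P t - rk K P * t⁻¹)
      (volume.restrict (Set.Ioc 1 x)) := by
    apply Measurable.aestronglyMeasurable
    have hm := (cn_mono K P).measurable
    fun_prop
  have hint3 : IntegrableOn (fun t : ℝ => C * t ^ (-(5 / 4) : ℝ)) (Set.Ioc 1 x) :=
    hint2.mono_set Set.Ioc_subset_Ioi_self
  have hae : ∀ᵐ t ∂(volume.restrict (Set.Ioc 1 x)),
      ‖(t ^ 2)⁻¹ * cn K P t - rk K P * t⁻¹‖ ≤ C * t ^ (-(5 / 4) : ℝ) :=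
    (ae_restrict_iff' measurableSet_Ioc).2 (Eventually.of_forall hbd)
  have hint4 : IntegrableOn (fun t : ℝ => (t ^ 2)⁻¹ * cn K P t - rk K P * t⁻¹)
      (Set.Ioc 1 x) := Integrable.mono' hint3 hmeas hae
  have hsplit : ∫ t in Set.Ioc 1 x, (t ^ 2)⁻¹ * cn K P t =
      rk K P * Real.log x + ∫ t in Set.Ioc 1 x, ((t ^ 2)⁻¹ * cn K P t - rk K P * t⁻¹) := by
    have e1 : ∫ t in Set.Ioc 1 x, rk K P * t⁻¹ = rk K P * Real.log x := by
      rw [← intervalIntegral.integral_of_le hx, intervalIntegral.integral_const_mul,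
        integral_inv_of_pos one_pos hx0]
      simp
    rw [← e1, ← integral_add hint1 hint4]
    congr 1
    ext t
    ring
  have hI : |∫ t in Set.Ioc 1 x, ((t ^ 2)⁻¹ * cn K P t - rk K P * t⁻¹)| ≤ 4 * C := by
    calc |∫ t in Set.Ioc 1 x, ((t ^ 2)⁻¹ * cn K P t - rk K P * t⁻¹)|
        ≤ ∫ t in Set.Ioc 1 x, C * t ^ (-(5 / 4) : ℝ) := by
          rw [← Real.norm_eq_abs]
          exact norm_integral_le_of_norm_le hint3 hae
      _ ≤ ∫ t in Set.Ioi (1 : ℝ), C * t ^ (-(5 / 4) : ℝ) := by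
          apply setIntegral_mono_set hint2
          · refine (ae_restrict_iff' measurableSet_Ioi).2 (Eventually.of_forall fun t ht => ?_)
            have : 0 < t := lt_trans one_pos ht
            simp only [Pi.zero_apply]
            positivity
          · exact Set.Ioc_subset_Ioi_self.eventuallyLE
      _ = 4 * C := by
          rw [integral_const_mul, integral_Ioi_rpow_of_lt (by norm_num) one_pos]
          norm_num
          ring
  have hJ : |x⁻¹ * cn K P x| ≤ |rk K P| + C := by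
    have e : x⁻¹ * cn K P x = x⁻¹ * (cn K P x - rk K P * x) + rk K P := by
      field_simp
      ring
    rw [e]
    refine (abs_add_le _ _).trans ?_
    rw [abs_mul, abs_of_pos (inv_pos.2 hx0)]
    have h3 : x⁻¹ * |cn K P x - rk K P * x| ≤ C := by
      calc x⁻¹ * |cn K P x - rk K P * x| ≤ x⁻¹ * (C * x ^ (3 / 4 : ℝ)) :=
            mul_le_mul_of_nonneg_left (hE x hx) (by positivity)
        _ ≤ x⁻¹ * (C * x ^ (1 : ℝ)) := by
            gcongr
            norm_num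
        _ = C := by
            rw [Real.rpow_one]
            field_simp
    linarith
  rw [hs2, hsplit]
  have e : x⁻¹ * cn K P x + (rk K P * Real.log x + ∫ t in Set.Ioc 1 x,
      ((t ^ 2)⁻¹ * cn K P t - rk K P * t⁻¹)) - rk K P * Real.log x =
      x⁻¹ * cn K P x + ∫ t in Set.Ioc 1 x, ((t ^ 2)⁻¹ * cn K P t - rk K P * t⁻¹) := by
    ring
  rw [e]
  refine (abs_add_le _ _).trans ?_
  linarith

end Pool.Agent.H11.HH
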